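import Mathlib

/-!
A dichotomy lemma for positive sequences.
-/

open Filter Finset Topology

namespace Pool.Agent.R865.PS

/-- uniformly contracting -/
def UC (B : ℕ → ℝ) : Prop :=
  ∃ C θ : ℝ, 0 < θ ∧ θ < 1 ∧ ∀ m k : ℕ, B (m + k) ≤ C * θ ^ k * B m

/-- uniformly expanding -/
def UE (B : ℕ → ℝ) : Prop :=
  ∃ C θ : ℝ, 0 < θ ∧ θ < 1 ∧ ∀ m k : ℕ, B m ≤ C * θ ^ k * B (m + k)

theorem UE_iff (B : ℕ → ℝ) (hB : ∀ n, 0 < B n) : UE B ↔ UC (fun n => (B n)⁻¹) := by
  constructor <;> rintro ⟨C, θ, h0, h1, h⟩ <;> refine ⟨C, θ, h0, h1, fun m k => ?_⟩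
  · have := h m k
    have h2 := hB m
    have h3 := hB (m + k)
    rw [inv_le_iff_one_le_mul₀ h3, mul_assoc, mul_comm (B m)⁻¹, ← mul_assoc]
    rw [← div_eq_mul_inv, one_le_div h2]
    exact this
  · have := h m k
    have h2 := hB m
    have h3 := hB (m + k)
    simp only at this
    rw [inv_le_iff_one_le_mul₀ h3, mul_assoc, mul_comm (B m)⁻¹, ← mul_assoc] at this
    rw [← div_eq_mul_inv, one_le_div h2] at this
    exact this

/-- Only far out matters. -/
theorem UC_of_far (B : ℕ → ℝ) (hB : ∀ n, 0 < B n) (W : ℝ) (hW : 1 ≤ W)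
    (h1 : ∀ n, B (n + 1) ≤ W * B n) (m0 : ℕ) (C θ : ℝ) (hC : 1 ≤ C) (hθ : 0 < θ) (hθ1 : θ < 1)
    (h : ∀ m k, m0 ≤ m → B (m + k) ≤ C * θ ^ k * B m) : UC B := by
  have hpow : ∀ m k, B (m + k) ≤ W ^ k * B m := by
    intro m k
    induction k with
    | zero => simp
    | succ k ih =>
      calc B (m + (k + 1)) ≤ W * B (m + k) := h1 (m + k)
        _ ≤ W * (W ^ k * B m) := by gcongr
        _ = W ^ (k + 1) * B m := by ring
  have hWθ : 1 ≤ W / θ := by rw [one_le_div hθ]; linarith
  refine ⟨C * (W / θ) ^ m0, θ, hθ, hθ1, fun m k => ?_⟩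
  rcases le_or_gt m0 m with hm | hm
  · refine (h m k hm).trans ?_
    have : 1 ≤ (W / θ) ^ m0 := one_le_pow₀ hWθ
    have h2 : 0 ≤ C * θ ^ k * B m := by have := hB m; positivity
    calc C * θ ^ k * B m ≤ (C * θ ^ k * B m) * (W / θ) ^ m0 := le_mul_of_one_le_right h2 this
      _ = _ := by ring
  · rcases le_or_gt m0 (m + k) with hk | hk
    · obtain ⟨a, ha⟩ : ∃ a, m0 = m + a := ⟨m0 - m, by omega⟩
      obtain ⟨b, hb⟩ : ∃ b, k = a + b := ⟨k - a, by omega⟩
      have e1 : B (m + k) ≤ C * θ ^ b * B m0 := by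
        have := h m0 b le_rfl
        rwa [ha, add_assoc, ← hb, ← ha] at this
      have e2 : B m0 ≤ W ^ a * B m := by rw [ha]; exact hpow m a
      calc B (m + k) ≤ C * θ ^ b * B m0 := e1
        _ ≤ C * θ ^ b * (W ^ a * B m) := by gcongr
        _ = C * (W / θ) ^ a * θ ^ k * B m := by
          rw [hb, pow_add, div_pow]; field_simp
        _ ≤ C * (W / θ) ^ m0 * θ ^ k * B m := by
          have := hB m
          gcongr
          omega
    · calc B (m + k) ≤ W ^ k * B m := hpow m k
        _ = (W / θ) ^ k * θ ^ k * B m := by rw [div_pow]; field_simp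
        _ ≤ (W / θ) ^ m0 * θ ^ k * B m := by
          have := hB m
          gcongr
          omega
        _ ≤ C * ((W / θ) ^ m0 * θ ^ k * B m) := by
          refine le_mul_of_one_le_left ?_ hC
          have := hB m
          positivity
        _ = _ := by ring

theorem dichotomy (B : ℕ → ℝ) (hB : ∀ n, 0 < B n) (W : ℝ) (hW : 1 ≤ W)
    (h1 : ∀ n, B (n + 1) ≤ W * B n) (h2 : ∀ n, B n ≤ W * B (n + 1)) (K : ℝ)
    (H : ∀ m N, m < N →
      B m * min (∑ i ∈ range m, (B i)⁻¹) (∑ i ∈ range N, (B i)⁻¹ - ∑ i ∈ range m, (B i)⁻¹) ≤ K ∨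
      (B 0 * min (∑ i ∈ range m, (B i)⁻¹) (∑ i ∈ range N, (B i)⁻¹ - ∑ i ∈ range m, (B i)⁻¹) ≤ K ∧
       B N * min (∑ i ∈ range m, (B i)⁻¹) (∑ i ∈ range N, (B i)⁻¹ - ∑ i ∈ range m, (B i)⁻¹) ≤ K)) :
    UC B ∨ UE B := by
  -- enlarge `K`
  wlog hK : 2 ≤ K generalizing K
  · refine this (max K 2) (fun m N hmN => ?_) (le_max_right _ _)
    rcases H m N hmN with h | ⟨h, h'⟩
    · exact Or.inl (h.trans (le_max_left _ _))
    · exact Or.inr ⟨h.trans (le_max_left _ _), h'.trans (le_max_left _ _)⟩
  set P : ℕ → ℝ := fun n => ∑ i ∈ range n, (B i)⁻¹ with hP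
  have hPs : ∀ n, P (n + 1) = P n + (B n)⁻¹ := fun n => by simp [hP, sum_range_succ]
  have hPmono : StrictMono P := strictMono_nat_of_lt_succ fun n => by
    rw [hPs]; have := inv_pos.2 (hB n); linarith
  have hP0 : P 0 = 0 := by simp [hP]
  by_cases hbd : BddAbove (Set.range P)
  · -- bounded: expanding
    right
    rw [UE_iff B hB]
    obtain ⟨s, hs⟩ : ∃ s, Tendsto P atTop (𝓝 s) :=
      ⟨_, tendsto_atTop_ciSup hPmono.monotone hbd⟩
    have hlt : ∀ n, P n < s := fun n =>
      (hPmono (Nat.lt_succ_self n)).trans_le (hPmono.monotone.ge_of_tendsto hs _)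
    have hB1 : Tendsto (fun n => (B n)⁻¹) atTop (𝓝 0) := by
      have h3 : Tendsto (fun n => P (n + 1) - P n) atTop (𝓝 (s - s)) :=
        ((tendsto_add_atTop_iff_nat 1).2 hs).sub hs
      rw [sub_self] at h3
      refine h3.congr fun n => ?_
      rw [hPs]; ring
    have hBinf : Tendsto B atTop atTop := by
      have h3 : Tendsto (fun n => (B n)⁻¹) atTop (𝓝[>] 0) :=
        tendsto_nhdsWithin_iff.2 ⟨hB1, Eventually.of_forall fun n => inv_pos.2 (hB n)⟩
      have h4 := h3.inv_tendsto_nhdsGT_zero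
      refine h4.congr fun n => ?_
      simp
    -- the limit inequality
    have key : ∀ m, 1 ≤ m → B m * min (P m) (s - P m) ≤ K := by
      intro m hm
      have hc : 0 < min (P m) (B m)⁻¹ := by
        refine lt_min ?_ (inv_pos.2 (hB m))
        rw [← hP0]; exact hPmono (by omega)
      have h3 : ∀ᶠ N in atTop, K / min (P m) (B m)⁻¹ < B N := hBinf.eventually_gt_atTop _
      have h4 : ∀ᶠ N in atTop, B m * min (P m) (P N - P m) ≤ K := by
        filter_upwards [h3, eventually_gt_atTop m] with N hN hmN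
        rcases H m N hmN with h | ⟨-, h⟩
        · exact h
        · exfalso
          have h5 : min (P m) (B m)⁻¹ ≤ min (P m) (P N - P m) := by
            refine min_le_min le_rfl ?_
            have h6 : P (m + 1) ≤ P N := hPmono.monotone hmN
            rw [hPs] at h6
            linarith
          have h7 : K < B N * min (P m) (B m)⁻¹ := by
            rwa [div_lt_iff₀ hc] at hN
          have h8 : B N * min (P m) (B m)⁻¹ ≤ B N * min (P m) (P N - P m) :=
            mul_le_mul_of_nonneg_left h5 (hB N).le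
          exact absurd (h7.trans_le (h8.trans h)) (lt_irrefl _)
      have h5 : Tendsto (fun N => B m * min (P m) (P N - P m)) atTop
          (𝓝 (B m * min (P m) (s - P m))) :=
        (tendsto_const_nhds.min (hs.sub tendsto_const_nhds)).const_mul _
      exact le_of_tendsto h5 h4
    -- far out
    obtain ⟨m0, hm0⟩ : ∃ m0, ∀ m, m0 ≤ m → 1 ≤ m ∧ s - P m ≤ P m := by
      have h3 : Tendsto (fun m => P m + P m) atTop (𝓝 (s + s)) := hs.add hs
      have h4 : ∀ᶠ m in atTop, s < P m + P m := by
        refine h3.eventually_const_lt ?_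
        have : 0 < s := hP0 ▸ hlt 0
        linarith
      obtain ⟨a, ha⟩ := eventually_atTop.1 (h4.and (eventually_ge_atTop 1))
      exact ⟨a, fun m hm => ⟨(ha m hm).2, by linarith [(ha m hm).1]⟩⟩
    have key2 : ∀ m, m0 ≤ m → B m * (s - P m) ≤ K := by
      intro m hm
      have h3 := key m (hm0 m hm).1
      rwa [min_eq_right (hm0 m hm).2] at h3
    have hθ0 : (0 : ℝ) < 1 - 1 / K := by
      have : 1 / K ≤ 1 / 2 := one_div_le_one_div_of_le two_pos hK
      linarith
    have hθ1 : (1 : ℝ) - 1 / K < 1 := by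
      have : 0 < 1 / K := by positivity
      linarith
    have step : ∀ m k, m0 ≤ m → s - P (m + k) ≤ (1 - 1 / K) ^ k * (s - P m) := by
      intro m k hm
      induction k with
      | zero => simp
      | succ k ih =>
        have h3 := key2 (m + k) (by omega)
        have h4 : (s - P (m + k)) / K ≤ (B (m + k))⁻¹ := by
          rw [div_le_iff₀ (by linarith), ← div_eq_inv_mul, le_div_iff₀ (hB _), mul_comm]
          exact h3
        calc s - P (m + (k + 1)) = s - P (m + k) - (B (m + k))⁻¹ := by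
              rw [← add_assoc, hPs]; ring
          _ ≤ s - P (m + k) - (s - P (m + k)) / K := by linarith
          _ = (1 - 1 / K) * (s - P (m + k)) := by ring
          _ ≤ (1 - 1 / K) * ((1 - 1 / K) ^ k * (s - P m)) := by gcongr
          _ = _ := by ring
    refine UC_of_far (fun n => (B n)⁻¹) (fun n => inv_pos.2 (hB n)) W hW ?_ m0 K (1 - 1 / K)
      (by linarith) hθ0 hθ1 ?_
    · intro n
      have h3 := hB n
      have h4 := hB (n + 1)
      rw [inv_le_iff_one_le_mul₀ h4, mul_assoc, mul_comm (B n)⁻¹, ← mul_assoc,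
        ← div_eq_mul_inv, one_le_div h3]
      exact h2 n
    · intro m k hm
      have h3 : (B (m + k))⁻¹ ≤ s - P (m + k) := by
        have := hlt (m + k + 1)
        rw [hPs] at this
        linarith
      have h4 : s - P m ≤ K * (B m)⁻¹ := by
        rw [← div_eq_mul_inv, le_div_iff₀ (hB m), mul_comm]
        exact key2 m hm
      calc (B (m + k))⁻¹ ≤ s - P (m + k) := h3
        _ ≤ (1 - 1 / K) ^ k * (s - P m) := step m k hm
        _ ≤ (1 - 1 / K) ^ k * (K * (B m)⁻¹) := by gcongr
        _ = _ := by ring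
  · -- unbounded: contracting
    left
    have hinf : Tendsto P atTop atTop := tendsto_atTop_atTop_of_monotone hPmono.monotone (by
      intro b
      by_contra hcon
      push Not at hcon
      exact hbd ⟨b, by rintro _ ⟨n, rfl⟩; exact (hcon n).le⟩)
    obtain ⟨m0, hm0⟩ := eventually_atTop.1 (hinf.eventually_gt_atTop (K / B 0))
    have key : ∀ m, m0 ≤ m → B m * P m ≤ K := by
      intro m hm
      have h3 : K < B 0 * P m := by
        have := hm0 m hm
        rw [div_lt_iff₀ (hB 0)] at this
        linarith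
      obtain ⟨N, hN, hmN⟩ := ((hinf.eventually_ge_atTop (P m + P m)).and
        (eventually_gt_atTop m)).exists
      have h4 : min (P m) (P N - P m) = P m := min_eq_left (by linarith)
      rcases H m N hmN with h | ⟨h, -⟩
      · change B m * min (P m) (P N - P m) ≤ K at h
        rwa [h4] at h
      · change B 0 * min (P m) (P N - P m) ≤ K at h
        rw [h4] at h
        exact absurd (h3.trans_le h) (lt_irrefl _)
    have hK0 : 0 < K := by linarith
    have step : ∀ m k, m0 ≤ m → (1 + 1 / K) ^ k * P m ≤ P (m + k) := by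
      intro m k hm
      induction k with
      | zero => simp
      | succ k ih =>
        have h3 := key (m + k) (by omega)
        have h4 : P (m + k) / K ≤ (B (m + k))⁻¹ := by
          rw [div_le_iff₀ hK0, ← div_eq_inv_mul, le_div_iff₀ (hB _), mul_comm]
          exact h3
        calc (1 + 1 / K) ^ (k + 1) * P m = (1 + 1 / K) * ((1 + 1 / K) ^ k * P m) := by ring
          _ ≤ (1 + 1 / K) * P (m + k) := by gcongr
          _ = P (m + k) + P (m + k) / K := by ring
          _ ≤ P (m + k) + (B (m + k))⁻¹ := by linarith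
          _ = P (m + (k + 1)) := by rw [← add_assoc, hPs]
    have hθ : (1 + 1 / K)⁻¹ < 1 := inv_lt_one_of_one_lt₀ (by
      have : 0 < 1 / K := by positivity
      linarith)
    have hpos : (0 : ℝ) < 1 + 1 / K := by positivity
    refine UC_of_far B hB W hW h1 m0 (K * (1 + 1 / K)) (1 + 1 / K)⁻¹ ?_ (by positivity) hθ ?_
    · have : K * (1 + 1 / K) = K + 1 := by field_simp
      rw [this]; linarith
    · intro m k hm
      rcases k with _ | k
      · simp only [add_zero, pow_zero, mul_one]
        refine le_mul_of_one_le_left (hB m).le ?_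
        have : K * (1 + 1 / K) = K + 1 := by field_simp
        rw [this]; linarith
      · have h3 := step (m + 1) k (by omega)
        have h4 : (B m)⁻¹ ≤ P (m + 1) := by
          rw [hPs]
          have : 0 ≤ P m := hP0 ▸ hPmono.monotone (Nat.zero_le m)
          linarith
        have h5 : (1 + 1 / K) ^ k * (B m)⁻¹ ≤ P (m + (k + 1)) := by
          calc (1 + 1 / K) ^ k * (B m)⁻¹ ≤ (1 + 1 / K) ^ k * P (m + 1) := by gcongr
            _ ≤ P (m + 1 + k) := h3
            _ = _ := by congr 1; omega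
        have h6 := key (m + (k + 1)) (by omega)
        have h7 : B (m + (k + 1)) * ((1 + 1 / K) ^ k * (B m)⁻¹) ≤ K :=
          (mul_le_mul_of_nonneg_left h5 (hB _).le).trans h6
        have hBm := hB m
        rw [← mul_assoc, ← div_eq_mul_inv, div_le_iff₀ hBm] at h7
        have h8 : B (m + (k + 1)) ≤ K * B m / (1 + 1 / K) ^ k := by
          rw [le_div_iff₀ (by positivity)]; exact h7
        refine h8.trans (le_of_eq ?_)
        rw [inv_pow, pow_succ]
        field_simp

end Pool.Agent.R865.PS
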