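import Mathlib
import Pool.Agent.R865.PS.Seq

/-!
Periodic shadowing of weighted shifts on abstract sequence spaces over `ℤ`.
-/

open Filter Finset Topology

namespace Pool.Agent.R865.PS

/-- The periodic shadowing property of an invertible operator. -/
def PSP {𝕜 : Type*} [NontriviallyNormedField 𝕜] {X : Type*} [NormedAddCommGroup X]
    [NormedSpace 𝕜 X] (T : X ≃L[𝕜] X) : Prop :=
  ∀ ε : ℝ, 0 < ε → ∃ δ : ℝ, 0 < δ ∧ ∀ (x : ℤ → X) (q : ℕ), 0 < q → (∀ j : ℤ, x (j + q) = x j) →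
    (∀ j : ℤ, ‖T (x j) - x (j + 1)‖ < δ) →
    ∃ y : X, (∃ n : ℕ, 0 < n ∧ (T ^ n) y = y) ∧ ∀ j : ℤ, ‖x j - (T ^ j) y‖ < ε

/-- An abstract sequence space over `ℤ`. -/
structure SS (𝕜 : Type*) [RCLike 𝕜] (X : Type*) [NormedAddCommGroup X] [NormedSpace 𝕜 X] where
  co : X →ₗ[𝕜] (ℤ → 𝕜)
  inj : Function.Injective co
  co_le : ∀ x n, ‖co x n‖ ≤ ‖x‖
  sg : ℤ → 𝕜 → X
  co_sg : ∀ n a, co (sg n a) = Pi.single n a
  norm_sg : ∀ n a, ‖sg n a‖ ≤ ‖a‖
  ms : ∀ (m : ℤ → 𝕜) (C : ℝ), (∀ n, ‖m n‖ ≤ C) → ∀ (k : ℤ) (x : X),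
    ∃ y : X, (∀ n, co y n = m n * co x (n + k)) ∧ ‖y‖ ≤ C * ‖x‖

variable {𝕜 : Type*} [RCLike 𝕜] {X : Type*} [NormedAddCommGroup X] [NormedSpace 𝕜 X]

theorem SS.bd (s : SS 𝕜 X) (m : ℤ → 𝕜) (C : ℝ) (hm : ∀ n, ‖m n‖ ≤ C) (k : ℤ) (x y : X)
    (h : ∀ n, s.co y n = m n * s.co x (n + k)) : ‖y‖ ≤ C * ‖x‖ := by
  obtain ⟨z, hz, hz'⟩ := s.ms m C hm k x
  have : y = z := s.inj (funext fun n => by rw [h, hz])
  rw [this]; exact hz'

/-- multiplication followed by a shift -/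
theorem SS.exists_op (s : SS 𝕜 X) (m : ℤ → 𝕜) (C : ℝ) (hm : ∀ n, ‖m n‖ ≤ C) (k : ℤ) :
    ∃ R : X →L[𝕜] X, ∀ x n, s.co (R x) n = m n * s.co x (n + k) := by
  choose f hf hf' using s.ms m C hm k
  let L : X →ₗ[𝕜] X :=
    { toFun := f
      map_add' := fun x y => s.inj (funext fun n => by
        rw [map_add, Pi.add_apply, hf, hf, hf, map_add, Pi.add_apply, mul_add])
      map_smul' := fun c x => s.inj (funext fun n => by
        rw [RingHom.id_apply, map_smul, Pi.smul_apply, hf, hf, map_smul, Pi.smul_apply,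
          smul_eq_mul, smul_eq_mul]; ring) }
  exact ⟨L.mkContinuous C hf', fun x n => hf x n⟩

/-- the weight data -/
structure WD (𝕜 : Type*) [RCLike 𝕜] (w : ℤ → 𝕜) where
  W : ℝ
  one_le : 1 ≤ W
  ub : ∀ n, ‖w n‖ ≤ W
  lb : ∀ n, 1 ≤ W * ‖w n‖
  A : ℤ → 𝕜
  A_zero : A 0 = 1
  A_succ : ∀ j, A (j + 1) = w (-j) * A j

theorem exists_WD (w : ℤ → 𝕜) (hb : ∃ C : ℝ, ∀ n, ‖w n‖ ≤ C) (hl : ∃ c : ℝ, 0 < c ∧ ∀ n, c ≤ ‖w n‖) :
    Nonempty (WD 𝕜 w) := by
  obtain ⟨C, hC⟩ := hb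
  obtain ⟨c, hc, hl⟩ := hl
  have hw0 : ∀ n, w n ≠ 0 := fun n h => by
    have := hl n; rw [h, norm_zero] at this; linarith
  let a : ℤ → 𝕜 := fun j => w (-j)
  have ha0 : ∀ n, a n ≠ 0 := fun n => hw0 _
  let A : ℤ → 𝕜 := fun j =>
    (∏ i ∈ range j.toNat, a (i : ℤ)) * (∏ i ∈ range (-j).toNat, a (-(i : ℤ) - 1))⁻¹
  refine ⟨⟨max 1 (max C c⁻¹), le_max_left _ _, fun n => (hC n).trans ?_, fun n => ?_, A, ?_, ?_⟩⟩
  · exact (le_max_left _ _).trans (le_max_right _ _)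
  · have h1 : c⁻¹ ≤ max 1 (max C c⁻¹) := (le_max_right _ _).trans (le_max_right _ _)
    calc (1 : ℝ) = c⁻¹ * c := by field_simp
      _ ≤ max 1 (max C c⁻¹) * ‖w n‖ := by
        have := hl n
        gcongr
  · simp [A]
  · intro j
    rcases le_or_gt 0 j with hj | hj
    · obtain ⟨n, rfl⟩ := Int.eq_ofNat_of_zero_le hj
      have e1 : ((n : ℤ) + 1).toNat = n + 1 := by omega
      have e2 : ((n : ℤ)).toNat = n := by omega
      have e3 : (-((n : ℤ) + 1)).toNat = 0 := by omega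
      have e4 : (-(n : ℤ)).toNat = 0 := by omega
      simp only [A]
      rw [e1, e2, e3, e4, prod_range_succ]
      simp only [range_zero, prod_empty, inv_one, mul_one, a]
      ring
    · obtain ⟨n, hn⟩ : ∃ n : ℕ, j = -(n : ℤ) - 1 := ⟨(-j - 1).toNat, by omega⟩
      subst hn
      have e1 : (-(n : ℤ) - 1 + 1).toNat = 0 := by omega
      have e2 : (-(n : ℤ) - 1).toNat = 0 := by omega
      have e3 : (-(-(n : ℤ) - 1 + 1)).toNat = n := by omega
      have e4 : (-(-(n : ℤ) - 1)).toNat = n + 1 := by omega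
      simp only [A]
      rw [e1, e2, e3, e4, prod_range_succ]
      have h2 := ha0 (-(n : ℤ) - 1)
      simp only [range_zero, prod_empty, one_mul]
      rw [mul_inv]
      show _ = a (-(n : ℤ) - 1) * _
      field_simp

variable {w : ℤ → 𝕜} (D : WD 𝕜 w)

include D in
theorem WD.w_ne (n : ℤ) : w n ≠ 0 := fun h => by
  have := D.lb n; rw [h, norm_zero, mul_zero] at this; linarith

theorem WD.A_ne (j : ℤ) : D.A j ≠ 0 := by
  induction j using Int.induction_on with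
  | zero => rw [D.A_zero]; exact one_ne_zero
  | succ n ih => rw [D.A_succ]; exact mul_ne_zero (D.w_ne _) ih
  | pred n ih =>
    intro h
    apply ih
    have := D.A_succ (-(n : ℤ) - 1)
    rw [h, mul_zero, sub_add_cancel] at this
    exact this

theorem WD.A_pos (j : ℤ) : 0 < ‖D.A j‖ := norm_pos_iff.2 (D.A_ne j)

theorem WD.A_le (j : ℤ) : ‖D.A (j + 1)‖ ≤ D.W * ‖D.A j‖ := by
  rw [D.A_succ, norm_mul]
  have := D.ub (-j)
  gcongr

theorem WD.le_A (j : ℤ) : ‖D.A j‖ ≤ D.W * ‖D.A (j + 1)‖ := by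
  rw [D.A_succ, norm_mul, ← mul_assoc]
  exact le_mul_of_one_le_left (norm_nonneg _) (D.lb _)

section shift

variable (s : SS 𝕜 X) (T : X ≃L[𝕜] X) (hT : ∀ x n, s.co (T x) n = w (n + 1) * s.co x (n + 1))

include hT in
theorem co_zpow (k : ℤ) : ∀ x n, s.co ((T ^ k) x) n = D.A (-n) / D.A (-n - k) * s.co x (n + k) := by
  have hA : ∀ n : ℤ, D.A (-n) = w (n + 1) * D.A (-n - 1) := by
    intro n
    have := D.A_succ (-n - 1)
    rw [sub_add_cancel] at this
    rw [this]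
    congr 2
    ring
  induction k using Int.induction_on with
  | zero =>
    intro x n
    rw [zpow_zero, sub_zero, add_zero, div_self (D.A_ne _), one_mul]
    rfl
  | succ k ih =>
    intro x n
    have h1 : (T ^ ((k : ℤ) + 1)) x = T ((T ^ (k : ℤ)) x) := by
      rw [add_comm, zpow_add, zpow_one]; rfl
    rw [h1, hT, ih, hA n]
    have e1 : -(n + 1) = -n - 1 := by ring
    have e2 : -(n + 1) - (k : ℤ) = -n - (k + 1) := by ring
    have e3 : n + 1 + (k : ℤ) = n + (k + 1) := by ring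
    rw [e2, e1, e3]
    ring
  | pred k ih =>
    intro x n
    have h1 : T ((T ^ (-(k : ℤ) - 1)) x) = (T ^ (-(k : ℤ))) x := by
      have : T ^ (-(k : ℤ)) = T * T ^ (-(k : ℤ) - 1) := by
        rw [← zpow_one_add]; congr 1; ring
      rw [this]; rfl
    have h2 := hT ((T ^ (-(k : ℤ) - 1)) x) (n - 1)
    rw [h1, ih, sub_add_cancel] at h2
    have h3 := hA (n - 1)
    rw [sub_add_cancel] at h3
    have e1 : -(n - 1) - -(k : ℤ) = -n - (-k - 1) := by ring
    have e2 : n - 1 + -(k : ℤ) = n + (-k - 1) := by ring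
    have e3 : -(n - 1) - 1 = -n := by ring
    rw [e3] at h3
    rw [h3, e1, e2] at h2
    have hw := D.w_ne n
    have h4 : w n * (s.co ((T ^ (-(k : ℤ) - 1)) x) n) =
        w n * (D.A (-n) / D.A (-n - (-k - 1)) * s.co x (n + (-k - 1))) := by
      rw [← h2]; ring
    exact mul_left_cancel₀ hw h4

theorem T_sg (n : ℤ) (a : 𝕜) (hT : ∀ x n, s.co (T x) n = w (n + 1) * s.co x (n + 1)) :
    T (s.sg n a) = s.sg (n - 1) (w n * a) := by
  apply s.inj
  funext i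
  rw [hT, s.co_sg, s.co_sg]
  by_cases h : i = n - 1
  · subst h
    rw [sub_add_cancel, Pi.single_eq_same, Pi.single_eq_same]
  · rw [Pi.single_eq_of_ne h, Pi.single_eq_of_ne (by omega), mul_zero]

theorem sg_sub (n : ℤ) (a b : 𝕜) : s.sg n a - s.sg n b = s.sg n (a - b) := by
  apply s.inj
  rw [map_sub, s.co_sg, s.co_sg, s.co_sg, Pi.single_sub]

theorem sg_zero (n : ℤ) : s.sg n (0 : 𝕜) = 0 := by
  apply s.inj
  rw [map_zero, s.co_sg, Pi.single_zero]

include hT in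
/-- finitely supported approximate solutions are close to solutions. -/
theorem psp_approx (hP : PSP T) : ∃ δ : ℝ, 0 < δ ∧ ∀ (c : ℤ → 𝕜) (Q : ℕ),
    (∀ j : ℤ, (Q : ℤ) ≤ |j| → c j = 0) → (∀ j, ‖c (j + 1) - w (-j) * c j‖ < δ) →
    ∃ σ : 𝕜, ∀ j, ‖c j - D.A j * σ‖ < 1 := by
  obtain ⟨δ, hδ, H⟩ := hP 1 one_pos
  refine ⟨δ, hδ, fun c Q hc hcd => ?_⟩
  let rep : ℤ → ℤ := fun j => (j + Q) % (2 * Q + 1) - Q
  have hrep1 : ∀ j, -(Q : ℤ) ≤ rep j := fun j => by
    have := Int.emod_nonneg (j + Q) (show (2 * (Q : ℤ) + 1) ≠ 0 by omega)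
    simp only [rep]; omega
  have hrep2 : ∀ j, rep j ≤ Q := fun j => by
    have := Int.emod_lt_of_pos (j + Q) (show 0 < (2 * (Q : ℤ) + 1) by omega)
    simp only [rep]; omega
  have hrep3 : ∀ j : ℤ, |j| ≤ (Q : ℤ) → rep j = j := fun j hj => by
    rw [abs_le] at hj
    simp only [rep]
    rw [Int.emod_eq_of_lt (by omega) (by omega)]; ring
  have hrep4 : ∀ j, rep j < Q → rep (j + 1) = rep j + 1 := fun j hj => by
    simp only [rep] at hj ⊢
    have h1 : (j + 1 + (Q : ℤ)) % (2 * Q + 1) = ((j + Q) % (2 * Q + 1) + 1) % (2 * Q + 1) := by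
      rw [Int.emod_add_emod]; congr 1; ring
    rw [h1, Int.emod_eq_of_lt]
    · ring
    · have := Int.emod_nonneg (j + Q) (show (2 * (Q : ℤ) + 1) ≠ 0 by omega)
      omega
    · omega
  have hrep5 : ∀ j, rep j = Q → rep (j + 1) = -Q := fun j hj => by
    simp only [rep] at hj ⊢
    have h1 : (j + 1 + (Q : ℤ)) % (2 * Q + 1) = ((j + Q) % (2 * Q + 1) + 1) % (2 * Q + 1) := by
      rw [Int.emod_add_emod]; congr 1; ring
    have h2 : (j + (Q : ℤ)) % (2 * Q + 1) + 1 = 2 * Q + 1 := by omega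
    rw [h1, h2, Int.emod_self]; ring
  let x : ℤ → X := fun j => s.sg (-rep j) (c (rep j))
  obtain ⟨y, -, hy⟩ := H x (2 * Q + 1) (by omega) (fun j => by
    have : rep (j + ((2 * Q + 1 : ℕ) : ℤ)) = rep j := by
      simp only [rep]
      have : j + ((2 * Q + 1 : ℕ) : ℤ) + Q = j + Q + (2 * Q + 1) := by push_cast; ring
      rw [this, Int.add_emod_right]
    simp only [x, this]) (fun j => by
    simp only [x]
    rcases lt_or_eq_of_le (hrep2 j) with h | h
    · rw [hrep4 j h, T_sg s T _ _ hT]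
      have e1 : -(rep j + 1) = -rep j - 1 := by ring
      rw [e1, sg_sub]
      refine (s.norm_sg _ _).trans_lt ?_
      rw [norm_sub_rev]
      exact hcd (rep j)
    · rw [hrep5 j h, h, hc Q (le_abs_self _), hc (-Q) (by rw [abs_neg]; exact le_abs_self _),
        sg_zero, sg_zero, map_zero, sub_zero, norm_zero]
      exact hδ)
  refine ⟨s.co y 0, fun j => ?_⟩
  have h1 : s.co ((T ^ j) y) (-j) = D.A j * s.co y 0 := by
    rw [co_zpow D s T hT]
    have e1 : -(-j) - j = 0 := by ring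
    rw [e1, D.A_zero, neg_neg, neg_add_cancel, div_one]
  have h2 : s.co (x j) (-j) = c j := by
    simp only [x]
    rw [s.co_sg]
    rcases le_or_gt (|j|) Q with h | h
    · rw [hrep3 j h, Pi.single_eq_same]
    · rw [Pi.single_eq_of_ne, hc j h.le]
      intro h3
      have h4 : j = rep j := by omega
      have h5 := hrep1 j
      have h6 := hrep2 j
      rw [← h4] at h5 h6
      rw [lt_abs] at h
      omega
  have h3 := (s.co_le (x j - (T ^ j) y) (-j)).trans_lt (hy j)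
  rw [map_sub, Pi.sub_apply, h1, h2] at h3
  exact h3

end shift

end Pool.Agent.R865.PS
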