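import Mathlib
import Pool.Agent.R865.PS.Abs

/-!
The dichotomy characterisation of the periodic shadowing property.
-/

open Filter Finset Topology

namespace Pool.Agent.R865.PS

variable {𝕜 : Type*} [RCLike 𝕜] {X : Type*} [NormedAddCommGroup X] [NormedSpace 𝕜 X]

theorem UC_C {B : ℕ → ℝ} (hB : ∀ n, 0 < B n) {C θ : ℝ}
    (h : ∀ m k : ℕ, B (m + k) ≤ C * θ ^ k * B m) : 1 ≤ C := by
  have := h 0 0
  rw [add_zero, pow_zero, mul_one] at this
  by_contra hc
  push Not at hc
  have h0 := hB 0
  nlinarith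

theorem UE_C {B : ℕ → ℝ} (hB : ∀ n, 0 < B n) {C θ : ℝ}
    (h : ∀ m k : ℕ, B m ≤ C * θ ^ k * B (m + k)) : 1 ≤ C := by
  have := h 0 0
  rw [add_zero, pow_zero, mul_one] at this
  by_contra hc
  push Not at hc
  have h0 := hB 0
  nlinarith

theorem UC_congr {B B' : ℕ → ℝ} (hB' : ∀ n, 0 < B' n) {W : ℝ} (hW : 1 ≤ W)
    (h1 : ∀ n, B n ≤ W * B' n) (h2 : ∀ n, B' n ≤ W * B n) (h : UC B') : UC B := by
  obtain ⟨C, θ, h0, h3, h⟩ := h
  have hC := UC_C hB' h
  refine ⟨W * C * W, θ, h0, h3, fun m k => ?_⟩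
  calc B (m + k) ≤ W * B' (m + k) := h1 _
    _ ≤ W * (C * θ ^ k * B' m) := by have := h m k; gcongr
    _ ≤ W * (C * θ ^ k * (W * B m)) := by have := h2 m; gcongr
    _ = _ := by ring

theorem UE_congr {B B' : ℕ → ℝ} (hB' : ∀ n, 0 < B' n) {W : ℝ} (hW : 1 ≤ W)
    (h1 : ∀ n, B n ≤ W * B' n) (h2 : ∀ n, B' n ≤ W * B n) (h : UE B') : UE B := by
  obtain ⟨C, θ, h0, h3, h⟩ := h
  have hC := UE_C hB' h
  refine ⟨W * C * W, θ, h0, h3, fun m k => ?_⟩
  calc B m ≤ W * B' m := h1 _
    _ ≤ W * (C * θ ^ k * B' (m + k)) := by have := h m k; gcongr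
    _ ≤ W * (C * θ ^ k * (W * B (m + k))) := by have := h2 (m + k); gcongr
    _ = _ := by ring

variable {w : ℤ → 𝕜} (D : WD 𝕜 w)

/-- the left sequence -/
noncomputable def Bl (n : ℕ) : ℝ := ‖D.A n‖
/-- the right sequence -/
noncomputable def Br (n : ℕ) : ℝ := ‖D.A (-n)‖

/-- the dichotomy -/
def Dich : Prop := (UC (Bl D) ∨ UE (Bl D)) ∧ (UC (Br D) ∨ UE (Br D))

/-- the truncation -/
noncomputable def phi (s t : ℝ) : ℝ := max 0 (min t (s - t))

theorem phi_lip (s a b : ℝ) : |phi s a - phi s b| ≤ |a - b| := by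
  unfold phi
  rcases max_cases 0 (min a (s - a)) with ⟨h1, h1'⟩ | ⟨h1, h1'⟩ <;>
  rcases max_cases 0 (min b (s - b)) with ⟨h2, h2'⟩ | ⟨h2, h2'⟩ <;>
  rcases min_cases a (s - a) with ⟨h3, h3'⟩ | ⟨h3, h3'⟩ <;>
  rcases min_cases b (s - b) with ⟨h4, h4'⟩ | ⟨h4, h4'⟩ <;>
  rcases abs_cases (a - b) with ⟨h5, h5'⟩ | ⟨h5, h5'⟩ <;>
  rw [h1, h2] <;> rw [abs_le] <;> constructor <;> linarith

theorem phi_nonneg (s t : ℝ) : 0 ≤ phi s t := le_max_left _ _

theorem phi_zero (s : ℝ) : phi s 0 = 0 := by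
  unfold phi
  rw [max_eq_left (min_le_left _ _)]

theorem phi_ge (s t : ℝ) (h : s ≤ t) : phi s t = 0 := by
  unfold phi
  rw [max_eq_left ((min_le_right _ _).trans (by linarith))]

theorem phi_mid (s t : ℝ) (h0 : 0 ≤ t) (h : t ≤ s) : phi s t = min t (s - t) := by
  unfold phi
  rw [max_eq_right (le_min h0 (by linarith))]

section forward

variable (s : SS 𝕜 X) (T : X ≃L[𝕜] X) (hT : ∀ x n, s.co (T x) n = w (n + 1) * s.co x (n + 1))

include hT in
theorem alt (hP : PSP T) : ∃ K : ℝ, 0 < K ∧ ∀ (f : ℤ → ℝ) (Q : ℕ),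
    (∀ j : ℤ, (Q : ℤ) ≤ |j| → f j = 0) →
    (∀ j, ‖D.A (j + 1)‖ * |f (j + 1) - f j| ≤ 1) → ∀ μ, 0 ≤ f μ →
    ‖D.A μ‖ * f μ ≤ K ∨ ∀ j, f j = 0 → ‖D.A j‖ * f μ ≤ K := by
  obtain ⟨δ, hδ, H⟩ := psp_approx D s T hT hP
  refine ⟨4 / δ, by positivity, fun f Q hf hfd μ hμ => ?_⟩
  obtain ⟨σ, hσ⟩ := H (fun j => ((δ / 2 * f j : ℝ) : 𝕜) * D.A j) Q
    (fun j hj => by rw [hf j hj, mul_zero, RCLike.ofReal_zero, zero_mul]) (fun j => by
      have e1 : ((δ / 2 * f (j + 1) : ℝ) : 𝕜) * D.A (j + 1) -
          w (-j) * (((δ / 2 * f j : ℝ) : 𝕜) * D.A j) =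
          (((δ / 2 * (f (j + 1) - f j) : ℝ) : 𝕜)) * D.A (j + 1) := by
        rw [D.A_succ j]; push_cast; ring
      rw [e1, norm_mul, RCLike.norm_ofReal, abs_mul, abs_of_pos (by positivity : 0 < δ / 2)]
      have h2 := hfd j
      nlinarith)
  have hσ' : ∀ j, ‖D.A j‖ * ‖((δ / 2 * f j : ℝ) : 𝕜) - σ‖ < 1 := by
    intro j
    have := hσ j
    rw [← norm_mul]
    convert this using 2
    ring
  rcases le_or_gt (δ / 4 * f μ) ‖σ‖ with h | h
  · right
    intro j hj
    have h1 := hσ' j
    rw [hj, mul_zero, RCLike.ofReal_zero, zero_sub, norm_neg] at h1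
    rw [le_div_iff₀ hδ]
    have h2 : ‖D.A j‖ * (δ / 4 * f μ) ≤ ‖D.A j‖ * ‖σ‖ := by gcongr
    nlinarith
  · left
    have h1 := hσ' μ
    have h2 : δ / 4 * f μ ≤ ‖((δ / 2 * f μ : ℝ) : 𝕜) - σ‖ := by
      have h3 := norm_sub_norm_le ((δ / 2 * f μ : ℝ) : 𝕜) σ
      rw [RCLike.norm_ofReal, abs_of_nonneg (by positivity)] at h3
      linarith
    rw [le_div_iff₀ hδ]
    have h3 : ‖D.A μ‖ * (δ / 4 * f μ) ≤ ‖D.A μ‖ * ‖((δ / 2 * f μ : ℝ) : 𝕜) - σ‖ := by gcongr
    nlinarith

include hT in
theorem dich_of_psp (hP : PSP T) : Dich D := by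
  obtain ⟨K, hK, H⟩ := alt D s T hT hP
  constructor
  · -- left
    set B : ℕ → ℝ := fun n => ‖D.A ((n : ℤ) + 1)‖ with hB
    have hBpos : ∀ n, 0 < B n := fun n => D.A_pos _
    have key : UC B ∨ UE B := by
      refine dichotomy B hBpos D.W D.one_le (fun n => ?_) (fun n => ?_) (D.W * K)
        (fun m N hmN => ?_)
      · simp only [hB]; push_cast; exact D.A_le _
      · simp only [hB]; push_cast; exact D.le_A _
      · set P : ℕ → ℝ := fun n => ∑ i ∈ range n, (B i)⁻¹ with hPd
        have hPs : ∀ n, P (n + 1) = P n + (B n)⁻¹ := fun n => by simp [hPd, sum_range_succ]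
        have hPmono : Monotone P := monotone_nat_of_le_succ fun n => by
          rw [hPs]; have := inv_pos.2 (hBpos n); linarith
        have hP0 : P 0 = 0 := by simp [hPd]
        have h1 := H (fun j => phi (P N) (P j.toNat)) (N + 1) (fun j hj => by
          rcases le_or_gt 0 j with h | h
          · rw [abs_of_nonneg h] at hj
            exact phi_ge _ _ (hPmono (by omega))
          · rw [Int.toNat_of_nonpos h.le, hP0, phi_zero]) (fun j => by
          rcases le_or_gt 0 j with h | h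
          · obtain ⟨n, rfl⟩ := Int.eq_ofNat_of_zero_le h
            have e1 : ((n : ℤ) + 1).toNat = n + 1 := by omega
            have e2 : ((n : ℤ)).toNat = n := by omega
            rw [e1, e2]
            have h2 := phi_lip (P N) (P (n + 1)) (P n)
            have h3 : |P (n + 1) - P n| = (B n)⁻¹ := by
              rw [hPs, add_sub_cancel_left, abs_of_pos (inv_pos.2 (hBpos n))]
            rw [h3] at h2
            calc B n * |phi (P N) (P (n + 1)) - phi (P N) (P n)| ≤ B n * (B n)⁻¹ := by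
                  have := hBpos n; gcongr
              _ = 1 := mul_inv_cancel₀ (hBpos n).ne'
          · rw [Int.toNat_of_nonpos h.le, Int.toNat_of_nonpos (by omega), sub_self, abs_zero,
              mul_zero]
            exact zero_le_one) m (phi_nonneg _ _)
        simp only [Int.toNat_natCast] at h1
        rw [phi_mid _ _ (hP0 ▸ hPmono (Nat.zero_le m)) (hPmono hmN.le)] at h1
        have hmin : 0 ≤ min (P m) (P N - P m) := le_min (hP0 ▸ hPmono (Nat.zero_le m))
          (by linarith [hPmono hmN.le])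
        rcases h1 with h1 | h1
        · left
          calc B m * min (P m) (P N - P m) ≤ (D.W * ‖D.A m‖) * min (P m) (P N - P m) := by
                have := D.A_le m
                gcongr
            _ = D.W * (‖D.A m‖ * min (P m) (P N - P m)) := by ring
            _ ≤ D.W * K := by have := D.one_le; gcongr
        · right
          have h2 := h1 0 (by rw [Int.toNat_zero, hP0, phi_zero])
          have h3 := h1 N (by rw [Int.toNat_natCast]; exact phi_ge _ _ le_rfl)
          constructor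
          · calc B 0 * min (P m) (P N - P m) ≤ (D.W * ‖D.A 0‖) * min (P m) (P N - P m) := by
                  have := D.A_le 0
                  gcongr
                  simpa [hB] using this
              _ = D.W * (‖D.A 0‖ * min (P m) (P N - P m)) := by ring
              _ ≤ D.W * K := by have := D.one_le; gcongr
          · calc B N * min (P m) (P N - P m) ≤ (D.W * ‖D.A N‖) * min (P m) (P N - P m) := by
                  have := D.A_le N
                  gcongr
              _ = D.W * (‖D.A N‖ * min (P m) (P N - P m)) := by ring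
              _ ≤ D.W * K := by have := D.one_le; gcongr
    have c1 : ∀ n, Bl D n ≤ D.W * B n := fun n => D.le_A _
    have c2 : ∀ n, B n ≤ D.W * Bl D n := fun n => D.A_le _
    rcases key with h | h
    · exact Or.inl (UC_congr hBpos D.one_le c1 c2 h)
    · exact Or.inr (UE_congr hBpos D.one_le c1 c2 h)
  · -- right
    refine dichotomy (Br D) (fun n => D.A_pos _) D.W D.one_le (fun n => ?_) (fun n => ?_) K
        (fun m N hmN => ?_)
    · have := D.le_A (-((n : ℤ) + 1))
      simp only [Br]; push_cast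
      convert this using 4
      ring
    · have := D.A_le (-((n : ℤ) + 1))
      simp only [Br]; push_cast
      convert this using 3
      ring
    · set P : ℕ → ℝ := fun n => ∑ i ∈ range n, (Br D i)⁻¹ with hPd
      have hBpos : ∀ n, 0 < Br D n := fun n => D.A_pos _
      have hPs : ∀ n, P (n + 1) = P n + (Br D n)⁻¹ := fun n => by simp [hPd, sum_range_succ]
      have hPmono : Monotone P := monotone_nat_of_le_succ fun n => by
        rw [hPs]; have := inv_pos.2 (hBpos n); linarith
      have hP0 : P 0 = 0 := by simp [hPd]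
      have h1 := H (fun j => phi (P N) (P (-j).toNat)) (N + 1) (fun j hj => by
        rcases le_or_gt j 0 with h | h
        · rw [abs_of_nonpos h] at hj
          exact phi_ge _ _ (hPmono (by omega))
        · rw [Int.toNat_of_nonpos (by omega), hP0, phi_zero]) (fun j => by
        rcases lt_or_ge j 0 with h | h
        · obtain ⟨n, hn⟩ : ∃ n : ℕ, j = -((n : ℤ) + 1) := ⟨(-j - 1).toNat, by omega⟩
          subst hn
          have e1 : (-(-((n : ℤ) + 1) + 1)).toNat = n := by omega
          have e2 : (-(-((n : ℤ) + 1))).toNat = n + 1 := by omega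
          have e3 : (-((n : ℤ) + 1) + 1) = -(n : ℤ) := by ring
          rw [e1, e2, e3]
          have h2 := phi_lip (P N) (P n) (P (n + 1))
          have h3 : |P n - P (n + 1)| = (Br D n)⁻¹ := by
            rw [hPs, abs_sub_comm, add_sub_cancel_left, abs_of_pos (inv_pos.2 (hBpos n))]
          rw [h3] at h2
          calc Br D n * |phi (P N) (P n) - phi (P N) (P (n + 1))| ≤ Br D n * (Br D n)⁻¹ := by
                have := hBpos n; gcongr
            _ = 1 := mul_inv_cancel₀ (hBpos n).ne'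
        · rw [Int.toNat_of_nonpos (by omega), Int.toNat_of_nonpos (by omega), sub_self, abs_zero,
            mul_zero]
          exact zero_le_one) (-(m : ℤ)) (phi_nonneg _ _)
      simp only [neg_neg, Int.toNat_natCast] at h1
      rw [phi_mid _ _ (hP0 ▸ hPmono (Nat.zero_le m)) (hPmono hmN.le)] at h1
      rcases h1 with h1 | h1
      · exact Or.inl h1
      · right
        have h2 := h1 0 (by rw [neg_zero, Int.toNat_zero, hP0, phi_zero])
        have h3 := h1 (-(N : ℤ)) (by rw [neg_neg, Int.toNat_natCast]; exact phi_ge _ _ le_rfl)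
        refine ⟨?_, h3⟩
        have : Br D 0 = ‖D.A 0‖ := by simp [Br]
        rw [this]; exact h2

end forward

end Pool.Agent.R865.PS
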