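import Mathlib
import Pool.Agent.R865.PS.Main

/-!
The dichotomy implies the periodic shadowing property.
-/

open Filter Finset Topology

namespace Pool.Agent.R865.PS

variable {𝕜 : Type*} [RCLike 𝕜] {X : Type*} [NormedAddCommGroup X] [NormedSpace 𝕜 X]

theorem zpow_succ_apply (T : X ≃L[𝕜] X) (k : ℤ) (x : X) : T ((T ^ k) x) = (T ^ (k + 1)) x := by
  rw [add_comm, zpow_add, zpow_one]; rfl

theorem orbit_of_rec (T : X ≃L[𝕜] X) (u : ℤ → X) (hu : ∀ j, u (j + 1) = T (u j)) (j : ℤ) :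
    u j = (T ^ j) (u 0) := by
  induction j using Int.induction_on with
  | zero => rw [zpow_zero]; rfl
  | succ n ih => rw [hu, ih, zpow_succ_apply]
  | pred n ih =>
    apply T.injective
    rw [← hu, zpow_succ_apply, sub_add_cancel, ih]

/-- hyperbolic splitting gives the periodic shadowing property. -/
theorem psp_hyp [CompleteSpace X] (T : X ≃L[𝕜] X) (P Q : X →L[𝕜] X) (hPQ : ∀ x, P x + Q x = x)
    (C θ : ℝ) (hC : 0 ≤ C) (hθ0 : 0 < θ) (hθ1 : θ < 1)
    (hP : ∀ (n : ℕ) x, ‖(T ^ (n : ℤ)) (P x)‖ ≤ C * θ ^ n * ‖x‖)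
    (hQ : ∀ (n : ℕ) x, ‖(T ^ (-(n : ℤ))) (Q x)‖ ≤ C * θ ^ n * ‖x‖) : PSP T := by
  intro ε hε
  have h1θ : 0 < 1 - θ := by linarith
  refine ⟨ε * (1 - θ) / (4 * (C + 1)), by positivity, fun x q hq hper hδ => ?_⟩
  set δ := ε * (1 - θ) / (4 * (C + 1)) with hδd
  have hδ0 : 0 < δ := by positivity
  set z : ℤ → X := fun j => x (j + 1) - T (x j) with hz
  have hzn : ∀ j, ‖z j‖ ≤ δ := fun j => by
    rw [hz, norm_sub_rev]; exact (hδ j).le
  have hzper : ∀ j, z (j + q) = z j := fun j => by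
    simp only [hz]
    rw [hper, show j + (q : ℤ) + 1 = (j + 1) + q by ring, hper]
  have hgeo : HasSum (fun n : ℕ => C * δ * θ ^ n) (C * δ * (1 - θ)⁻¹) :=
    (hasSum_geometric_of_lt_one hθ0.le hθ1).mul_left _
  have ba : ∀ (j : ℤ) (n : ℕ), ‖(T ^ (n : ℤ)) (P (z (j - 1 - n)))‖ ≤ C * δ * θ ^ n := fun j n => by
    refine (hP n _).trans ?_
    have := hzn (j - 1 - n)
    calc C * θ ^ n * ‖z (j - 1 - n)‖ ≤ C * θ ^ n * δ := by gcongr
      _ = _ := by ring
  have bb : ∀ (j : ℤ) (n : ℕ), ‖(T ^ (-(n : ℤ))) (Q (z (j + n)))‖ ≤ C * δ * θ ^ n := fun j n => by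
    refine (hQ n _).trans ?_
    have := hzn (j + n)
    calc C * θ ^ n * ‖z (j + n)‖ ≤ C * θ ^ n * δ := by gcongr
      _ = _ := by ring
  have bb' : ∀ (j : ℤ) (n : ℕ), ‖(T ^ (-((n : ℤ) + 1))) (Q (z (j + n)))‖ ≤ C * δ * θ ^ n :=
    fun j n => by
    have h1 := hQ (n + 1) (z (j + n))
    push_cast at h1
    refine h1.trans ?_
    have := hzn (j + n)
    calc C * θ ^ (n + 1) * ‖z (j + n)‖ ≤ C * θ ^ (n + 1) * δ := by gcongr
      _ = C * δ * θ ^ n * θ := by ring
      _ ≤ C * δ * θ ^ n * 1 := by gcongr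
      _ = _ := by ring
  have sa : ∀ j, Summable (fun n : ℕ => (T ^ (n : ℤ)) (P (z (j - 1 - n)))) := fun j =>
    Summable.of_norm_bounded hgeo.summable (ba j)
  have sb : ∀ j, Summable (fun n : ℕ => (T ^ (-(n : ℤ))) (Q (z (j + n)))) := fun j =>
    Summable.of_norm_bounded hgeo.summable (bb j)
  have sb' : ∀ j, Summable (fun n : ℕ => (T ^ (-((n : ℤ) + 1))) (Q (z (j + n)))) := fun j =>
    Summable.of_norm_bounded hgeo.summable (bb' j)
  set a : ℤ → X := fun j => ∑' n : ℕ, (T ^ (n : ℤ)) (P (z (j - 1 - n))) with ha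
  set b : ℤ → X := fun j => ∑' n : ℕ, (T ^ (-((n : ℤ) + 1))) (Q (z (j + n))) with hb
  have ra : ∀ j, a (j + 1) = P (z j) + T (a j) := by
    intro j
    simp only [ha]
    rw [(sa (j + 1)).tsum_eq_zero_add, ContinuousLinearEquiv.map_tsum]
    congr 1
    · simp only [Nat.cast_zero, zpow_zero, sub_zero, add_sub_cancel_right]; rfl
    · refine tsum_congr fun n => ?_
      rw [zpow_succ_apply]
      push_cast
      congr 3
      ring
  have rb : ∀ j, T (b j) = Q (z j) + b (j + 1) := by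
    intro j
    simp only [hb]
    rw [ContinuousLinearEquiv.map_tsum]
    have h1 : ∀ n : ℕ, T ((T ^ (-((n : ℤ) + 1))) (Q (z (j + n)))) =
        (T ^ (-(n : ℤ))) (Q (z (j + n))) := fun n => by
      rw [zpow_succ_apply]; congr 2; ring
    simp only [h1]
    rw [(sb j).tsum_eq_zero_add]
    congr 1
    · simp only [Nat.cast_zero, neg_zero, zpow_zero, add_zero]; rfl
    · refine tsum_congr fun n => ?_
      push_cast
      congr 3
      ring
  set y : ℤ → X := fun j => a j - b j with hy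
  have ry : ∀ j, y (j + 1) = T (y j) + z j := by
    intro j
    show a (j + 1) - b (j + 1) = T (a j - b j) + z j
    have h := hPQ (z j)
    rw [ra, map_sub T (a j) (b j), rb]
    generalize P (z j) = p at h ⊢
    generalize Q (z j) = r at h ⊢
    rw [← h]
    abel
  have ny : ∀ j, ‖y j‖ < ε := by
    intro j
    have h1 : ‖a j‖ ≤ C * δ * (1 - θ)⁻¹ := tsum_of_norm_bounded hgeo (ba j)
    have h2 : ‖b j‖ ≤ C * δ * (1 - θ)⁻¹ := tsum_of_norm_bounded hgeo (bb' j)
    have h3 : C * δ * (1 - θ)⁻¹ = C * ε / (4 * (C + 1)) := by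
      rw [hδd]; field_simp
    have h4 : C * ε / (4 * (C + 1)) ≤ ε / 4 := by
      rw [div_le_div_iff₀ (by positivity) (by positivity)]
      nlinarith
    calc ‖y j‖ ≤ ‖a j‖ + ‖b j‖ := norm_sub_le _ _
      _ ≤ ε / 4 + ε / 4 := by rw [h3] at h1 h2; linarith
      _ < ε := by linarith
  have py : y (0 + q) = y 0 := by
    simp only [hy, ha, hb]
    congr 1
    · refine tsum_congr fun n => ?_
      rw [show (0 + (q : ℤ) - 1 - n) = (0 - 1 - n) + q by ring, hzper]
    · refine tsum_congr fun n => ?_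
      rw [show (0 + (q : ℤ) + n) = (0 + n) + q by ring, hzper]
  set u : ℤ → X := fun j => x j - y j with hu
  have ru : ∀ j, u (j + 1) = T (u j) := by
    intro j
    show x (j + 1) - y (j + 1) = T (x j - y j)
    rw [ry, map_sub T (x j) (y j)]
    show x (j + 1) - (T (y j) + (x (j + 1) - T (x j))) = _
    abel
  have ou := orbit_of_rec T u ru
  refine ⟨u 0, ⟨q, hq, ?_⟩, fun j => ?_⟩
  · have h1 := ou (0 + q)
    rw [zero_add, zpow_natCast] at h1
    rw [← h1]
    simp only [hu]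
    rw [zero_add] at py
    have := hper 0
    rw [zero_add] at this
    rw [py, this]
  · rw [← ou j]
    simp only [hu]
    rw [sub_sub_cancel]
    exact ny j

/-- periodic pseudo-trajectories of a contraction are small. -/
theorem small_of (R : X →L[𝕜] X) (C θ : ℝ) (hC : 0 ≤ C) (hθ0 : 0 < θ) (hθ1 : θ < 1)
    (hR : ∀ (n : ℕ) x, ‖(R ^ n) x‖ ≤ C * θ ^ n * ‖x‖) (u : ℤ → X) (q : ℕ) (hq : 0 < q)
    (hper : ∀ j : ℤ, u (j + q) = u j) (δ : ℝ) (hδ : ∀ j, ‖u (j + 1) - R (u j)‖ ≤ δ) (j : ℤ) :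
    ‖u j‖ ≤ C * δ * (1 - θ)⁻¹ := by
  have hδ0 : 0 ≤ δ := (norm_nonneg _).trans (hδ 0)
  obtain ⟨M, hM⟩ : ∃ M, ∀ j, ‖u j‖ ≤ M := by
    refine ⟨∑ i ∈ range q, ‖u (i : ℤ)‖, fun j => ?_⟩
    have hper' : ∀ (k : ℤ) (j : ℤ), u (j + q * k) = u j := by
      intro k
      induction k using Int.induction_on with
      | zero => intro j; simp
      | succ n ih => intro j; rw [show j + (q : ℤ) * (n + 1) = (j + q * n) + q by ring, hper, ih]
      | pred n ih =>
        intro j
        rw [← hper (j + q * (-n - 1)), show j + (q : ℤ) * (-n - 1) + q = j + q * (-n) by ring, ih]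
    have h1 : u j = u (j % q) := by
      have := hper' (j / q) (j % q)
      rw [Int.emod_add_mul_ediv] at this
      exact this
    have h2 : 0 ≤ j % q := Int.emod_nonneg _ (by omega)
    have h3 : j % q < q := Int.emod_lt_of_pos _ (by omega)
    obtain ⟨i, hi⟩ := Int.eq_ofNat_of_zero_le h2
    rw [h1, hi]
    have h4 : i < q := by omega
    exact single_le_sum (f := fun i : ℕ => ‖u (i : ℤ)‖) (fun _ _ => norm_nonneg _)
      (mem_range.2 h4)
  have id : ∀ n : ℕ, u j = (R ^ n) (u (j - n)) +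
      ∑ i ∈ range n, (R ^ i) (u (j - 1 - i + 1) - R (u (j - 1 - i))) := by
    intro n
    induction n with
    | zero => simp
    | succ n ih =>
      rw [sum_range_succ]
      have h1 : (R ^ n) (u (j - n)) = (R ^ (n + 1)) (u (j - (n + 1 : ℕ))) +
          (R ^ n) (u (j - 1 - n + 1) - R (u (j - 1 - n))) := by
        have e1 : j - 1 - (n : ℤ) + 1 = j - n := by ring
        have e2 : j - ((n + 1 : ℕ) : ℤ) = j - 1 - n := by push_cast; ring
        rw [e1, e2, map_sub, pow_succ]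
        show _ = (R ^ n) (R (u (j - 1 - n))) + _
        abel
      rw [ih, h1]
      abel
  have bd : ∀ n : ℕ, ‖u j‖ ≤ C * θ ^ n * M + C * δ * (1 - θ)⁻¹ := by
    intro n
    rw [id n]
    refine (norm_add_le _ _).trans (add_le_add ?_ ?_)
    · refine (hR n _).trans ?_
      have := hM (j - n)
      gcongr
    · calc ‖∑ i ∈ range n, (R ^ i) (u (j - 1 - i + 1) - R (u (j - 1 - i)))‖
          ≤ ∑ i ∈ range n, ‖(R ^ i) (u (j - 1 - i + 1) - R (u (j - 1 - i)))‖ := norm_sum_le _ _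
        _ ≤ ∑ i ∈ range n, C * δ * θ ^ i := by
          refine sum_le_sum fun i _ => (hR i _).trans ?_
          have := hδ (j - 1 - i)
          calc C * θ ^ i * ‖u (j - 1 - i + 1) - R (u (j - 1 - i))‖ ≤ C * θ ^ i * δ := by gcongr
            _ = _ := by ring
        _ ≤ C * δ * (1 - θ)⁻¹ := by
          have hgeo : HasSum (fun n : ℕ => C * δ * θ ^ n) (C * δ * (1 - θ)⁻¹) :=
            (hasSum_geometric_of_lt_one hθ0.le hθ1).mul_left _
          exact sum_le_hasSum _ (fun i _ => by positivity) hgeo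
  have hlim : Tendsto (fun n : ℕ => C * θ ^ n * M + C * δ * (1 - θ)⁻¹) atTop
      (𝓝 (C * 0 * M + C * δ * (1 - θ)⁻¹)) :=
    (((tendsto_pow_atTop_nhds_zero_of_lt_one hθ0.le hθ1).const_mul C).mul_const M).add_const _
  have := ge_of_tendsto' hlim bd
  simpa using this

end Pool.Agent.R865.PS
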