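import Mathlib
import Pool.Agent.R865.PS.Back

/-!
The dichotomy implies the periodic shadowing property for weighted shifts.
-/

open Filter Finset Topology

namespace Pool.Agent.R865.PS

variable {𝕜 : Type*} [RCLike 𝕜] {X : Type*} [NormedAddCommGroup X] [NormedSpace 𝕜 X]

/-- contraction estimate for a function on `ℤ`, on the pairs satisfying `p`. -/
def Est (g : ℤ → ℝ) (p : ℤ → ℕ → Prop) (C θ : ℝ) : Prop :=
  ∀ (j : ℤ) (n : ℕ), p j n → g (j + n) ≤ C * θ ^ n * g j

theorem Est.mono {g : ℤ → ℝ} (hg : ∀ j, 0 < g j) {p : ℤ → ℕ → Prop} {C θ C' θ' : ℝ}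
    (h : Est g p C θ) (hC0 : 0 ≤ C) (hC : C ≤ C') (hθ0 : 0 ≤ θ) (hθ : θ ≤ θ') :
    Est g p C' θ' := by
  intro j n hp
  refine (h j n hp).trans ?_
  have := hg j
  have hC' : 0 ≤ C' := hC0.trans hC
  gcongr

theorem est_glue {g : ℤ → ℝ} (hg : ∀ j, 0 < g j) {C θ : ℝ} (hC : 1 ≤ C) (hθ0 : 0 < θ)
    (h1 : Est g (fun j _ => 0 ≤ j) C θ) (h2 : Est g (fun j n => j + n ≤ 0) C θ) :
    Est g (fun _ _ => True) (C * C) θ := by
  intro j n _
  have hgj := hg j
  rcases le_or_gt 0 j with hj | hj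
  · refine (h1 j n hj).trans ?_
    have : C ≤ C * C := by nlinarith
    gcongr
  · rcases le_or_gt (j + n) 0 with hn | hn
    · refine (h2 j n hn).trans ?_
      have : C ≤ C * C := by nlinarith
      gcongr
    · obtain ⟨a, ha⟩ : ∃ a : ℕ, j + a = 0 := ⟨(-j).toNat, by omega⟩
      obtain ⟨b, hb⟩ : ∃ b : ℕ, n = a + b := ⟨n - a, by omega⟩
      have e1 := h2 j a ha.le
      have e2 := h1 (j + a) b ha.ge
      have e3 : j + (n : ℤ) = j + a + b := by rw [hb]; push_cast; ring
      rw [e3]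
      calc g (j + a + b) ≤ C * θ ^ b * g (j + a) := e2
        _ ≤ C * θ ^ b * (C * θ ^ a * g j) := by gcongr
        _ = C * C * θ ^ n * g j := by rw [hb, pow_add]; ring

variable {w : ℤ → 𝕜} (D : WD 𝕜 w)

/-- the norm function and its inverse -/
noncomputable def gA (j : ℤ) : ℝ := ‖D.A j‖
noncomputable def gI (j : ℤ) : ℝ := ‖D.A j‖⁻¹

theorem gI_iff (j k : ℤ) (c : ℝ) : gI D k ≤ c * gI D j ↔ ‖D.A j‖ ≤ c * ‖D.A k‖ := by
  unfold gI
  have h1 := D.A_pos j
  have h2 := D.A_pos k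
  rw [← div_eq_mul_inv, le_div_iff₀ h1, ← div_eq_inv_mul, div_le_iff₀ h2]

theorem est_left_UC (h : UC (Bl D)) : ∃ C θ, 1 ≤ C ∧ 0 < θ ∧ θ < 1 ∧
    Est (gA D) (fun j _ => 0 ≤ j) C θ := by
  obtain ⟨C, θ, h0, h1, h⟩ := h
  refine ⟨C, θ, UC_C (fun n => D.A_pos _) h, h0, h1, fun j n hj => ?_⟩
  obtain ⟨m, rfl⟩ := Int.eq_ofNat_of_zero_le hj
  have := h m n
  simp only [Bl] at this
  push_cast at this
  exact this

theorem est_left_UE (h : UE (Bl D)) : ∃ C θ, 1 ≤ C ∧ 0 < θ ∧ θ < 1 ∧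
    Est (gI D) (fun j _ => 0 ≤ j) C θ := by
  obtain ⟨C, θ, h0, h1, h⟩ := h
  refine ⟨C, θ, UE_C (fun n => D.A_pos _) h, h0, h1, fun j n hj => ?_⟩
  obtain ⟨m, rfl⟩ := Int.eq_ofNat_of_zero_le hj
  have := h m n
  simp only [Bl] at this
  push_cast at this
  rw [gI_iff]
  exact this

theorem est_right_UE (h : UE (Br D)) : ∃ C θ, 1 ≤ C ∧ 0 < θ ∧ θ < 1 ∧
    Est (gA D) (fun j n => j + n ≤ 0) C θ := by
  obtain ⟨C, θ, h0, h1, h⟩ := h
  refine ⟨C, θ, UE_C (B := Br D) (fun n => D.A_pos _) h, h0, h1, fun j n hj => ?_⟩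
  obtain ⟨m, hm⟩ := Int.eq_ofNat_of_zero_le (show 0 ≤ -(j + n) by omega)
  have := h m n
  simp only [Br] at this
  push_cast at this
  have e1 : j + (n : ℤ) = -m := by omega
  have e2 : j = -((m : ℤ) + n) := by omega
  show ‖D.A (j + n)‖ ≤ C * θ ^ n * ‖D.A j‖
  rw [e1, e2]
  exact this

theorem est_right_UC (h : UC (Br D)) : ∃ C θ, 1 ≤ C ∧ 0 < θ ∧ θ < 1 ∧
    Est (gI D) (fun j n => j + n ≤ 0) C θ := by
  obtain ⟨C, θ, h0, h1, h⟩ := h
  refine ⟨C, θ, UC_C (B := Br D) (fun n => D.A_pos _) h, h0, h1, fun j n hj => ?_⟩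
  obtain ⟨m, hm⟩ := Int.eq_ofNat_of_zero_le (show 0 ≤ -(j + n) by omega)
  have := h m n
  simp only [Br] at this
  push_cast at this
  have e1 : j + (n : ℤ) = -m := by omega
  have e2 : j = -((m : ℤ) + n) := by omega
  rw [gI_iff, e1, e2]
  exact this

section back

variable [CompleteSpace X] (s : SS 𝕜 X) (T : X ≃L[𝕜] X)
  (hT : ∀ x n, s.co (T x) n = w (n + 1) * s.co x (n + 1))

include hT in
theorem caseA (C θ : ℝ) (hC : 1 ≤ C) (hθ0 : 0 < θ) (hθ1 : θ < 1)
    (h : Est (gA D) (fun _ _ => True) C θ) : PSP T := by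
  refine psp_hyp T (ContinuousLinearMap.id 𝕜 X) 0 (fun x => by simp) C θ (by linarith) hθ0 hθ1
    (fun n x => ?_) (fun n x => ?_)
  · refine s.bd (fun i => D.A (-i) / D.A (-i - n)) (C * θ ^ n) (fun i => ?_) n x _
      (fun i => ?_)
    · rw [norm_div, div_le_iff₀ (D.A_pos _)]
      have := h (-i - n) n trivial
      rwa [sub_add_cancel] at this
    · rw [co_zpow D s T hT]; rfl
  · rw [zero_apply, map_zero, norm_zero]
    positivity

include hT in
theorem caseB (C θ : ℝ) (hC : 1 ≤ C) (hθ0 : 0 < θ) (hθ1 : θ < 1)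
    (h : Est (gI D) (fun _ _ => True) C θ) : PSP T := by
  refine psp_hyp T 0 (ContinuousLinearMap.id 𝕜 X) (fun x => by simp) C θ (by linarith) hθ0 hθ1
    (fun n x => ?_) (fun n x => ?_)
  · rw [zero_apply, map_zero, norm_zero]
    positivity
  · refine s.bd (fun i => D.A (-i) / D.A (-i - -n)) (C * θ ^ n) (fun i => ?_) (-n) x _
      (fun i => ?_)
    · rw [norm_div, div_le_iff₀ (D.A_pos _)]
      have := h (-i) n trivial
      rw [gI_iff] at this
      rwa [sub_neg_eq_add]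
    · rw [co_zpow D s T hT]; rfl

include hT in
theorem caseC (C θ : ℝ) (hC : 1 ≤ C) (hθ0 : 0 < θ) (hθ1 : θ < 1)
    (h1 : Est (gA D) (fun j _ => 0 ≤ j) C θ)
    (h2 : Est (gI D) (fun j n => j + n ≤ 0) C θ) : PSP T := by
  classical
  obtain ⟨P, hP⟩ := s.exists_op (fun i => if i ≤ 0 then 1 else 0) 1
    (fun i => by split_ifs <;> simp) 0
  obtain ⟨Q, hQ⟩ := s.exists_op (fun i => if i ≤ 0 then 0 else 1) 1
    (fun i => by split_ifs <;> simp) 0
  refine psp_hyp T P Q (fun x => s.inj (funext fun i => ?_)) C θ (by linarith) hθ0 hθ1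
    (fun n x => ?_) (fun n x => ?_)
  · rw [map_add, Pi.add_apply, hP, hQ, add_zero]
    split_ifs <;> simp
  · refine s.bd (fun i => D.A (-i) / D.A (-i - n) * (if i + n ≤ 0 then 1 else 0)) (C * θ ^ n)
      (fun i => ?_) n x _ (fun i => ?_)
    · split_ifs with hi
      · rw [mul_one, norm_div, div_le_iff₀ (D.A_pos _)]
        have := h1 (-i - n) n (by omega)
        rwa [sub_add_cancel] at this
      · rw [mul_zero, norm_zero]; positivity
    · rw [co_zpow D s T hT, hP, add_zero]; ring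
  · refine s.bd (fun i => D.A (-i) / D.A (-i - -n) * (if i + -n ≤ 0 then 0 else 1)) (C * θ ^ n)
      (fun i => ?_) (-n) x _ (fun i => ?_)
    · split_ifs with hi
      · rw [mul_zero, norm_zero]; positivity
      · rw [mul_one, norm_div, div_le_iff₀ (D.A_pos _)]
        have := h2 (-i) n (by omega)
        rw [gI_iff] at this
        rwa [sub_neg_eq_add]
    · rw [co_zpow D s T hT, hQ, add_zero]; ring

omit [CompleteSpace X] in
theorem pow_R1 (R : X →L[𝕜] X) (hR : ∀ x i, s.co (R x) i =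
    (if 1 ≤ i then w (i + 1) else 0) * s.co x (i + 1)) (n : ℕ) : ∀ x i, s.co ((R ^ n) x) i =
    (if n = 0 then 1 else if 1 ≤ i then D.A (-i) / D.A (-i - n) else 0) * s.co x (i + n) := by
  have hA : ∀ n : ℤ, D.A (-n) = w (n + 1) * D.A (-n - 1) := by
    intro n
    have := D.A_succ (-n - 1)
    rw [sub_add_cancel] at this
    rw [this]
    congr 2
    ring
  induction n with
  | zero => intro x i; simp
  | succ n ih =>
    intro x i
    rw [pow_succ']
    show s.co (R ((R ^ n) x)) i = _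
    rw [hR, ih, if_neg (Nat.succ_ne_zero n)]
    by_cases hi : 1 ≤ i
    · rw [if_pos hi, if_pos hi, if_pos (show 1 ≤ i + 1 by omega), hA i]
      have e1 : i + ((n + 1 : ℕ) : ℤ) = i + 1 + n := by push_cast; ring
      have e2 : -i - ((n + 1 : ℕ) : ℤ) = -(i + 1) - n := by push_cast; ring
      have e3 : -i - 1 = -(i + 1) := by ring
      rw [e1, e2, e3]
      by_cases hn : n = 0
      · subst hn
        rw [if_pos rfl]
        have := D.A_ne (-(i + 1))
        simp only [Nat.cast_zero, sub_zero, one_mul]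
        field_simp
      · rw [if_neg hn]
        ring
    · rw [if_neg hi, if_neg hi]; ring

omit [CompleteSpace X] in
theorem pow_R2 (R : X →L[𝕜] X) (hR : ∀ x i, s.co (R x) i =
    (if i ≤ 0 then (w i)⁻¹ else 0) * s.co x (i + -1)) (n : ℕ) : ∀ x i, s.co ((R ^ n) x) i =
    (if n = 0 then 1 else if i ≤ 0 then D.A (-i) / D.A (-i + n) else 0) * s.co x (i - n) := by
  have hA : ∀ n : ℤ, (w n)⁻¹ * D.A (-n + 1) = D.A (-n) := by
    intro n
    have := D.A_succ (-n)
    have hw := D.w_ne n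
    rw [this, neg_neg]
    field_simp
  induction n with
  | zero => intro x i; simp
  | succ n ih =>
    intro x i
    rw [pow_succ']
    show s.co (R ((R ^ n) x)) i = _
    rw [hR, ih, if_neg (Nat.succ_ne_zero n)]
    by_cases hi : i ≤ 0
    · rw [if_pos hi, if_pos hi, if_pos (show i + -1 ≤ 0 by omega), ← hA i]
      have e1 : i - ((n + 1 : ℕ) : ℤ) = i + -1 - n := by push_cast; ring
      have e2 : -i + ((n + 1 : ℕ) : ℤ) = -(i + -1) + n := by push_cast; ring
      have e3 : -i + 1 = -(i + -1) := by ring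
      rw [e1, e2, e3]
      by_cases hn : n = 0
      · subst hn
        rw [if_pos rfl]
        have := D.A_ne (-(i + -1))
        simp only [Nat.cast_zero, add_zero, one_mul]
        field_simp
      · rw [if_neg hn]
        ring
    · rw [if_neg hi, if_neg hi]; ring

omit [CompleteSpace X] in
include hT in
theorem caseD (C θ : ℝ) (hC : 1 ≤ C) (hθ0 : 0 < θ) (hθ1 : θ < 1)
    (h1 : Est (gI D) (fun j _ => 0 ≤ j) C θ)
    (h2 : Est (gA D) (fun j n => j + n ≤ 0) C θ) : PSP T := by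
  classical
  obtain ⟨P, hP⟩ := s.exists_op (fun i => if 1 ≤ i then 1 else 0) 1
    (fun i => by split_ifs <;> simp) 0
  obtain ⟨Q, hQ⟩ := s.exists_op (fun i => if i ≤ 0 then 1 else 0) 1
    (fun i => by split_ifs <;> simp) 0
  have hW := D.one_le
  have hwinv : ∀ i, ‖(w i)⁻¹‖ ≤ D.W := fun i => by
    rw [norm_inv, inv_le_iff_one_le_mul₀ (norm_pos_iff.2 (D.w_ne i))]
    exact D.lb i
  obtain ⟨R1, hR1⟩ := s.exists_op (fun i => if 1 ≤ i then w (i + 1) else 0) D.W
    (fun i => by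
      split_ifs
      · exact D.ub _
      · rw [norm_zero]; linarith) 1
  obtain ⟨R2, hR2⟩ := s.exists_op (fun i => if i ≤ 0 then (w i)⁻¹ else 0) D.W
    (fun i => by
      split_ifs
      · exact hwinv _
      · rw [norm_zero]; linarith) (-1)
  have b1 : ∀ (n : ℕ) x, ‖(R1 ^ n) x‖ ≤ C * θ ^ n * ‖x‖ := by
    intro n x
    refine s.bd _ (C * θ ^ n) (fun i => ?_) n x _ (pow_R1 D s R1 hR1 n x)
    by_cases hn : n = 0
    · rw [if_pos hn, hn, norm_one, pow_zero, mul_one]; exact hC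
    · rw [if_neg hn]
      split_ifs with hi
      · rw [norm_div, div_le_iff₀ (D.A_pos _)]
        have := h2 (-i - n) n (by omega)
        rwa [sub_add_cancel] at this
      · rw [norm_zero]; positivity
  have b2 : ∀ (n : ℕ) x, ‖(R2 ^ n) x‖ ≤ C * θ ^ n * ‖x‖ := by
    intro n x
    refine s.bd _ (C * θ ^ n) (fun i => ?_) (-n) x _ (pow_R2 D s R2 hR2 n x)
    by_cases hn : n = 0
    · rw [if_pos hn, hn, norm_one, pow_zero, mul_one]; exact hC
    · rw [if_neg hn]
      split_ifs with hi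
      · rw [norm_div, div_le_iff₀ (D.A_pos _)]
        have := h1 (-i) n (by omega)
        rwa [gI_iff] at this
      · rw [norm_zero]; positivity
  intro ε hε
  have h1θ : 0 < 1 - θ := by linarith
  refine ⟨ε * (1 - θ) / (4 * C * D.W), by positivity, fun x q hq hper hδ => ?_⟩
  set δ := ε * (1 - θ) / (4 * C * D.W) with hδd
  have hδ0 : 0 < δ := by positivity
  refine ⟨0, ⟨1, one_pos, map_zero _⟩, fun j => ?_⟩
  rw [map_zero, sub_zero]
  have hz : ∀ j, ‖x (j + 1) - T (x j)‖ ≤ δ := fun j => by rw [norm_sub_rev]; exact (hδ j).le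
  have s1 : ‖P (x j)‖ ≤ C * δ * (1 - θ)⁻¹ := by
    refine small_of R1 C θ (by linarith) hθ0 hθ1 b1 (fun j => P (x j)) q hq
      (fun j => by rw [hper]) δ (fun j => ?_) j
    refine (s.bd (fun i => if 1 ≤ i then 1 else 0) 1 (fun i => by split_ifs <;> simp) 0
      (x (j + 1) - T (x j)) _ (fun i => ?_)).trans (by rw [one_mul]; exact hz j)
    rw [map_sub, Pi.sub_apply, map_sub, Pi.sub_apply, hP, hR1, hP, add_zero, add_zero, hT]
    by_cases hi : 1 ≤ i
    · rw [if_pos hi, if_pos hi, if_pos (show 1 ≤ i + 1 by omega)]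
      ring
    · rw [if_neg hi, if_neg hi]; ring
  have s2 : ‖Q (x j)‖ ≤ C * (D.W * δ) * (1 - θ)⁻¹ := by
    have := small_of R2 C θ (by linarith) hθ0 hθ1 b2 (fun j => Q (x (-j))) q hq
      (fun j => by
        have := hper (-(j + q))
        rw [show -(j + (q : ℤ)) + q = -j by ring] at this
        rw [this]) (D.W * δ) (fun j => ?_) (-j)
    · rwa [neg_neg] at this
    · refine (s.bd (fun i => if i ≤ 0 then -(w i)⁻¹ else 0) D.W (fun i => by
        split_ifs
        · rw [norm_neg]; exact hwinv _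
        · rw [norm_zero]; linarith) (-1)
        (x (-(j + 1) + 1) - T (x (-(j + 1)))) _ (fun i => ?_)).trans (by
          have := hz (-(j + 1))
          gcongr)
      rw [map_sub, Pi.sub_apply, map_sub, Pi.sub_apply, hQ, hR2, hQ, add_zero, add_zero, hT,
        neg_add_cancel_right]
      have e1 : -(j + 1) + 1 = -j := by ring
      rw [e1]
      have hw := D.w_ne i
      by_cases hi : i ≤ 0
      · simp only [if_pos hi, if_pos (show i + -1 ≤ 0 by omega)]
        field_simp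
        ring
      · simp only [if_neg hi]; ring
  have s3 : x j = P (x j) + Q (x j) := s.inj (funext fun i => by
    rw [map_add, Pi.add_apply, hP, hQ, add_zero]
    by_cases hi : 1 ≤ i
    · rw [if_pos hi, if_neg (by omega)]; ring
    · rw [if_neg hi, if_pos (by omega)]; ring)
  have e1 : C * δ * (1 - θ)⁻¹ ≤ ε / 4 := by
    rw [hδd]
    have : C * (ε * (1 - θ) / (4 * C * D.W)) * (1 - θ)⁻¹ = ε / 4 / D.W := by field_simp
    rw [this]
    exact div_le_self (by positivity) hW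
  have e2 : C * (D.W * δ) * (1 - θ)⁻¹ = ε / 4 := by
    rw [hδd]; field_simp
  calc ‖x j‖ = ‖P (x j) + Q (x j)‖ := by rw [← s3]
    _ ≤ ‖P (x j)‖ + ‖Q (x j)‖ := norm_add_le _ _
    _ ≤ ε / 4 + ε / 4 := by linarith
    _ < ε := by linarith

include hT in
theorem psp_of_dich (h : Dich D) : PSP T := by
  have gApos : ∀ j, 0 < gA D j := fun j => D.A_pos j
  have gIpos : ∀ j, 0 < gI D j := fun j => inv_pos.2 (D.A_pos j)
  rcases h with ⟨hl | hl, hr | hr⟩
  · obtain ⟨C1, θ1, c1, t1, u1, e1⟩ := est_left_UC D hl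
    obtain ⟨C2, θ2, c2, t2, u2, e2⟩ := est_right_UC D hr
    exact caseC D s T hT (max C1 C2) (max θ1 θ2) (c1.trans (le_max_left _ _))
      (t1.trans_le (le_max_left _ _)) (max_lt u1 u2)
      (e1.mono gApos (by linarith) (le_max_left _ _) t1.le (le_max_left _ _))
      (e2.mono gIpos (by linarith) (le_max_right _ _) t2.le (le_max_right _ _))
  · obtain ⟨C1, θ1, c1, t1, u1, e1⟩ := est_left_UC D hl
    obtain ⟨C2, θ2, c2, t2, u2, e2⟩ := est_right_UE D hr
    have c3 : 1 ≤ max C1 C2 := c1.trans (le_max_left _ _)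
    refine caseA D s T hT (max C1 C2 * max C1 C2) (max θ1 θ2) (by nlinarith)
      (t1.trans_le (le_max_left _ _)) (max_lt u1 u2)
      (est_glue gApos c3 (t1.trans_le (le_max_left _ _))
      (e1.mono gApos (by linarith) (le_max_left _ _) t1.le (le_max_left _ _))
      (e2.mono gApos (by linarith) (le_max_right _ _) t2.le (le_max_right _ _)))
  · obtain ⟨C1, θ1, c1, t1, u1, e1⟩ := est_left_UE D hl
    obtain ⟨C2, θ2, c2, t2, u2, e2⟩ := est_right_UC D hr
    have c3 : 1 ≤ max C1 C2 := c1.trans (le_max_left _ _)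
    refine caseB D s T hT (max C1 C2 * max C1 C2) (max θ1 θ2) (by nlinarith)
      (t1.trans_le (le_max_left _ _)) (max_lt u1 u2)
      (est_glue gIpos c3 (t1.trans_le (le_max_left _ _))
      (e1.mono gIpos (by linarith) (le_max_left _ _) t1.le (le_max_left _ _))
      (e2.mono gIpos (by linarith) (le_max_right _ _) t2.le (le_max_right _ _)))
  · obtain ⟨C1, θ1, c1, t1, u1, e1⟩ := est_left_UE D hl
    obtain ⟨C2, θ2, c2, t2, u2, e2⟩ := est_right_UE D hr
    exact caseD D s T hT (max C1 C2) (max θ1 θ2) (c1.trans (le_max_left _ _))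
      (t1.trans_le (le_max_left _ _)) (max_lt u1 u2)
      (e1.mono gIpos (by linarith) (le_max_left _ _) t1.le (le_max_left _ _))
      (e2.mono gApos (by linarith) (le_max_right _ _) t2.le (le_max_right _ _))

end back

end Pool.Agent.R865.PS
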